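import Mathlib

/-!
# MP_532480_nt: composite numbers for which `n ^ 2` does not divide the numerator
-/

namespace Pool.Agent.Results.MP_532480_nt.CompositeCases

open Finset

/-- `R(n) = -2/n + ∑_{k=1}^n 2^k/k`. -/
noncomputable def R (n : ℕ) : ℚ := -2 / n + ∑ k ∈ Icc 1 n, (2 : ℚ) ^ k / k

/-- the numerator of `R(n)` in lowest terms. -/
noncomputable def N (n : ℕ) : ℤ := (R n).num

/-- `H(J) = ∑_{j=1}^J 2^j/j`. -/
noncomputable def H (J : ℕ) : ℚ := ∑ j ∈ Icc 1 J, (2 : ℚ) ^ j / j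

section
variable (p : ℕ) [hp : Fact p.Prime]

lemma norm_eq (x : ℚ) : padicNorm p x = padicNorm p (x.num : ℚ) / padicNorm p (x.den : ℚ) := by
  rw [← padicNorm.div, Rat.num_div_den]

lemma not_dvd_of_norm {x : ℚ} (h : 1 ≤ padicNorm p x) : ¬ (p : ℤ) ∣ x.num := by
  intro hd
  have h1 : padicNorm p (x.num : ℚ) < 1 := (padicNorm.int_lt_one_iff x.num).2 hd
  have h2 : ¬ p ∣ x.den := by
    intro hd2
    have h3 : p ∣ x.num.natAbs := Int.natCast_dvd.1 hd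
    have h4 := Nat.dvd_gcd h3 hd2
    rw [Nat.Coprime.gcd_eq_one x.reduced] at h4
    exact hp.1.one_lt.ne' (Nat.dvd_one.1 h4)
  have h3 : padicNorm p (x.den : ℚ) = 1 := (padicNorm.nat_eq_one_iff x.den).2 h2
  rw [norm_eq, h3, div_one] at h
  linarith

lemma norm_of_not_dvd {x : ℚ} (h : ¬ (p : ℤ) ∣ x.num) : 1 ≤ padicNorm p x := by
  have h1 : padicNorm p (x.num : ℚ) = 1 := (padicNorm.int_eq_one_iff x.num).2 h
  have h3 : padicNorm p (x.den : ℚ) ≤ 1 := padicNorm.of_nat x.den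
  have h0 : 0 < padicNorm p (x.den : ℚ) :=
    lt_of_le_of_ne (padicNorm.nonneg _) (Ne.symm (padicNorm.nonzero (by exact_mod_cast x.den_nz)))
  rw [norm_eq, h1, le_div_iff₀ h0]
  linarith

lemma norm_pos_nat {k : ℕ} (hk : k ≠ 0) : 0 < padicNorm p (k : ℚ) :=
  lt_of_le_of_ne (padicNorm.nonneg _) (Ne.symm (padicNorm.nonzero (by exact_mod_cast hk)))

lemma norm_ppow (k : ℕ) : padicNorm p ((p : ℚ) ^ k) = ((p : ℚ) ^ k)⁻¹ := by
  induction k with
  | zero => simp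
  | succ k ih => rw [pow_succ, padicNorm.mul, ih, padicNorm.padicNorm_p_of_prime, mul_inv]

lemma add_norm {y d : ℚ} {t : ℚ} (hy : t ≤ padicNorm p y) (hd : padicNorm p d < t) :
    t ≤ padicNorm p (y + d) := by
  rw [padicNorm.add_eq_max_of_ne (by linarith [lt_of_lt_of_le hd hy] : padicNorm p y ≠ padicNorm p d)]
  exact le_max_of_le_left hy

lemma main_norm (c : ℕ → ℤ) (L J n : ℕ) (h1 : J * p ^ L ≤ n)
    (h2 : n < (J + 1) * p ^ L)
    (hy : 1 ≤ padicNorm p (∑ j ∈ Icc 1 J, (c (j * p ^ L) : ℚ) / j)) :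
    1 ≤ padicNorm p (∑ k ∈ Icc 1 n, (c k : ℚ) / k) := by
  classical
  have hp0 : 0 < p := hp.1.pos
  have hpL : 0 < p ^ L := by positivity
  have hpLq : (1 : ℚ) ≤ (p : ℚ) ^ L := by exact_mod_cast hpL
  rw [← sum_filter_add_sum_filter_not (Icc 1 n) (fun k => p ^ L ∣ k)]
  have e1 : ∑ k ∈ (Icc 1 n).filter (fun k => p ^ L ∣ k), (c k : ℚ) / k =
      (∑ j ∈ Icc 1 J, (c (j * p ^ L) : ℚ) / j) * (1 / ((p ^ L : ℕ) : ℚ)) := by
    have himg : (Icc 1 n).filter (fun k => p ^ L ∣ k) = (Icc 1 J).image (fun j => j * p ^ L) := by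
      ext k
      rw [mem_filter, mem_image, mem_Icc]
      constructor
      · rintro ⟨⟨ha, hb⟩, j, rfl⟩
        refine ⟨j, mem_Icc.2 ⟨?_, ?_⟩, mul_comm _ _⟩
        · rcases Nat.eq_zero_or_pos j with h | h
          · subst h; simp at ha
          · exact h
        · have : p ^ L * j < (J + 1) * p ^ L := lt_of_le_of_lt hb h2
          rw [mul_comm] at this
          exact Nat.lt_succ_iff.1 (Nat.lt_of_mul_lt_mul_right this)
      · rintro ⟨j, hj, rfl⟩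
        rw [mem_Icc] at hj
        refine ⟨⟨?_, ?_⟩, Dvd.intro_left _ rfl⟩
        · exact Nat.mul_pos hj.1 hpL
        · exact (Nat.mul_le_mul_right _ hj.2).trans h1
    rw [himg, sum_image (fun a _ b _ h => Nat.eq_of_mul_eq_mul_right hpL h), sum_mul]
    apply sum_congr rfl
    intro j _
    push_cast
    rw [div_mul_div_comm, mul_one]
  have e2 : padicNorm p (1 / ((p ^ L : ℕ) : ℚ)) = (p : ℚ) ^ L := by
    rw [padicNorm.div, padicNorm.one]
    push_cast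
    rw [norm_ppow]
    simp
  have n1 : (p : ℚ) ^ L ≤ padicNorm p (∑ k ∈ (Icc 1 n).filter (fun k => p ^ L ∣ k), (c k : ℚ) / k) := by
    rw [e1, padicNorm.mul, e2]
    nlinarith
  have n2 : padicNorm p (∑ k ∈ (Icc 1 n).filter (fun k => ¬ p ^ L ∣ k), (c k : ℚ) / k) <
      (p : ℚ) ^ L := by
    apply padicNorm.sum_lt'
    · intro k hk
      rw [mem_filter, mem_Icc] at hk
      have hk0 := norm_pos_nat p (k := k) (by omega)
      have h3 : ¬ padicNorm p ((k : ℤ) : ℚ) ≤ (p : ℚ) ^ (-(L : ℤ)) := by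
        rw [← padicNorm.dvd_iff_norm_le]
        intro h
        exact hk.2 (by exact_mod_cast h)
      rw [not_le, zpow_neg, zpow_natCast] at h3
      have h4 : padicNorm p (c k : ℚ) ≤ 1 := padicNorm.of_int _
      rw [padicNorm.div, div_lt_iff₀ hk0]
      have h5 : (0 : ℚ) < (p : ℚ) ^ L := by linarith
      rw [inv_lt_iff_one_lt_mul₀ h5] at h3
      push_cast at h3
      linarith
    · linarith
  exact hpLq.trans (add_norm p n1 n2)

end

/-- the coefficients. -/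
def c (n k : ℕ) : ℤ := 2 ^ k - if k = n then 2 else 0

lemma R_eq (n : ℕ) (hn : 1 ≤ n) : R n = ∑ k ∈ Icc 1 n, (c n k : ℚ) / k := by
  unfold R c
  have : ∀ k ∈ Icc 1 n, (((2 ^ k - if k = n then 2 else 0 : ℤ)) : ℚ) / k =
      (2 : ℚ) ^ k / k - if k = n then (2 : ℚ) / k else 0 := by
    intro k _
    split_ifs <;> push_cast <;> ring
  rw [sum_congr rfl this, sum_sub_distrib, sum_ite_eq' , if_pos (mem_Icc.2 ⟨hn, le_rfl⟩)]
  ring

lemma twist (p : ℕ) [hp : Fact p.Prime] (L J n : ℕ) (hJ : J < p)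
    (hy : 1 ≤ padicNorm p (∑ j ∈ Icc 1 J,
      (((2 ^ j - if j * p ^ L = n then 2 else 0 : ℤ)) : ℚ) / j)) :
    1 ≤ padicNorm p (∑ j ∈ Icc 1 J, (c n (j * p ^ L) : ℚ) / j) := by
  have h1 : ∑ j ∈ Icc 1 J, (c n (j * p ^ L) : ℚ) / j =
      ∑ j ∈ Icc 1 J, (((2 ^ j - if j * p ^ L = n then 2 else 0 : ℤ)) : ℚ) / j +
      ∑ j ∈ Icc 1 J, ((2 ^ (j * p ^ L) - 2 ^ j : ℤ) : ℚ) / j := by
    rw [← sum_add_distrib]
    apply sum_congr rfl
    intro j _
    unfold c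
    push_cast
    ring
  rw [h1]
  apply add_norm p hy
  apply padicNorm.sum_lt' _ one_pos
  intro j hj
  rw [mem_Icc] at hj
  have h2 : padicNorm p (j : ℚ) = 1 := by
    rw [padicNorm.nat_eq_one_iff]
    intro h
    have := Nat.le_of_dvd hj.1 h
    omega
  rw [padicNorm.div, h2, div_one, padicNorm.int_lt_one_iff]
  rw [← ZMod.intCast_zmod_eq_zero_iff_dvd]
  push_cast
  rw [pow_mul, ZMod.pow_card_pow, sub_self]

theorem partA (n : ℕ) (hn : 0 < n) (he : n % 2 = 0) : ¬ (2 : ℤ) ∣ N n := by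
  have : Fact (Nat.Prime 2) := ⟨Nat.prime_two⟩
  have h := @not_dvd_of_norm 2 _ (R n)
  apply h
  unfold R
  apply add_norm 2
  · have h1 := norm_pos_nat 2 (k := n) (by omega)
    rw [padicNorm.div, le_div_iff₀ h1, one_mul, padicNorm.neg]
    have h2 : padicNorm 2 ((n : ℤ) : ℚ) ≤ (2 : ℕ) ^ (-(1 : ℕ) : ℤ) := by
      rw [← padicNorm.dvd_iff_norm_le]
      push_cast
      omega
    have h3 : padicNorm 2 (2 : ℚ) = (2 : ℚ)⁻¹ := by
      have := @padicNorm.padicNorm_p_of_prime 2 _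
      exact_mod_cast this
    rw [h3]
    push_cast at h2
    simpa using h2
  · apply padicNorm.sum_lt' _ one_pos
    intro k hk
    rw [mem_Icc] at hk
    have h1 := norm_pos_nat 2 (k := k) (by omega)
    rw [padicNorm.div, div_lt_one h1]
    have h3 : ¬ padicNorm 2 ((k : ℤ) : ℚ) ≤ (2 : ℕ) ^ (-(k : ℕ) : ℤ) := by
      rw [← padicNorm.dvd_iff_norm_le]
      intro h
      have h4 : 2 ^ k ∣ k := by exact_mod_cast h
      have h5 := Nat.le_of_dvd hk.1 h4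
      have h6 := @Nat.lt_two_pow_self k
      omega
    rw [not_le] at h3
    have h4 : padicNorm 2 ((2 : ℚ) ^ k) = (2 : ℚ) ^ (-(k : ℤ)) := by
      have := norm_ppow 2 k
      rw [zpow_neg, zpow_natCast]
      exact_mod_cast this
    rw [h4]
    exact_mod_cast h3

theorem partB (p : ℕ) (hpp : p.Prime) (L J n : ℕ) (hJ : J < p) (h1 : J * p ^ L < n)
    (h2 : n < (J + 1) * p ^ L) (hH : ¬ (p : ℤ) ∣ (H J).num) : ¬ (p : ℤ) ∣ N n := by
  have : Fact p.Prime := ⟨hpp⟩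
  apply not_dvd_of_norm p
  rw [R_eq n (by omega)]
  apply main_norm p (c n) L J n h1.le h2
  apply twist p L J n hJ
  have h3 : ∑ j ∈ Icc 1 J, (((2 ^ j - if j * p ^ L = n then 2 else 0 : ℤ)) : ℚ) / j = H J := by
    unfold H
    apply sum_congr rfl
    intro j hj
    rw [mem_Icc] at hj
    have h4 : j * p ^ L ≤ J * p ^ L := Nat.mul_le_mul_right _ hj.2
    rw [if_neg (by omega)]
    push_cast
    ring
  rw [h3]
  exact norm_of_not_dvd p hH

theorem partC (p : ℕ) (hpp : p.Prime) (L J : ℕ) (h0 : 1 ≤ J) (hJ : J < p)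
    (hH : ¬ (p : ℤ) ∣ N J) : ¬ (p : ℤ) ∣ N (J * p ^ L) := by
  have : Fact p.Prime := ⟨hpp⟩
  have hpL : 0 < p ^ L := pow_pos hpp.pos _
  apply not_dvd_of_norm p
  rw [R_eq _ (Nat.mul_pos h0 hpL)]
  apply main_norm p (c (J * p ^ L)) L J (J * p ^ L) le_rfl
    (Nat.mul_lt_mul_of_pos_right (by omega) hpL)
  apply twist p L J _ hJ
  have h3 : ∑ j ∈ Icc 1 J, (((2 ^ j - if j * p ^ L = J * p ^ L then 2 else 0 : ℤ)) : ℚ) / j =
      R J := by
    rw [R_eq J h0]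
    apply sum_congr rfl
    intro j _
    unfold c
    have : j * p ^ L = J * p ^ L ↔ j = J := Nat.mul_left_inj hpL.ne'
    simp only [this]
  rw [h3]
  exact norm_of_not_dvd p hH

lemma not_sq_dvd {p n : ℕ} (h : p ∣ n) (h2 : ¬ (p : ℤ) ∣ N n) : ¬ (n : ℤ) ^ 2 ∣ N n := by
  intro h3
  apply h2
  have h4 : (p : ℤ) ∣ (n : ℤ) ^ 2 := Dvd.dvd.pow (by exact_mod_cast h) (by norm_num)
  exact h4.trans h3

lemma R_pos (m : ℕ) (hm : 2 ≤ m) : 0 < R m := by
  unfold R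
  obtain ⟨k, rfl⟩ : ∃ k, m = k + 1 := ⟨m - 1, by omega⟩
  rw [sum_Icc_succ_top (by omega)]
  have h1 : 0 < ∑ j ∈ Icc 1 k, (2 : ℚ) ^ j / j := by
    apply sum_pos
    · intro j hj
      rw [mem_Icc] at hj
      have : (0 : ℚ) < j := by exact_mod_cast (by omega : 0 < j)
      positivity
    · exact ⟨1, mem_Icc.2 ⟨le_rfl, by omega⟩⟩
  have h2 : (2 : ℚ) ≤ 2 ^ (k + 1) := by
    rw [pow_succ]
    have : (1 : ℚ) ≤ 2 ^ k := one_le_pow₀ (by norm_num)
    linarith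
  have h3 : (0 : ℚ) < ((k + 1 : ℕ) : ℚ) := by positivity
  have h4 : (2 : ℚ) / ((k + 1 : ℕ) : ℚ) ≤ 2 ^ (k + 1) / ((k + 1 : ℕ) : ℚ) :=
    div_le_div_of_nonneg_right h2 h3.le
  rw [neg_div]
  linarith

theorem result :
    -- every even `n`: the numerator is odd, so `n ^ 2` does not divide it
    (∀ n : ℕ, 0 < n → n % 2 = 0 → ¬ (2 : ℤ) ∣ N n ∧ ¬ (n : ℤ) ^ 2 ∣ N n) ∧
    -- `p ∣ n`, `J p^L < n < (J+1) p^L`, `p` not dividing the numerator of `H J`
    (∀ p : ℕ, p.Prime → ∀ L J n : ℕ, J < p → J * p ^ L < n → n < (J + 1) * p ^ L → p ∣ n →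
      ¬ (p : ℤ) ∣ (H J).num → ¬ (n : ℤ) ^ 2 ∣ N n) ∧
    -- in particular an odd prime divisor `p` of `n` with `p^L < n < 3 p^L`
    (∀ p : ℕ, p.Prime → p ≠ 2 → ∀ L n : ℕ, p ^ L < n → n < 3 * p ^ L → p ∣ n →
      ¬ (n : ℤ) ^ 2 ∣ N n) ∧
    -- `n = m p^L`, `m < p`
    (∀ p : ℕ, p.Prime → ∀ L m : ℕ, 1 ≤ L → 1 ≤ m → m < p → ¬ (p : ℤ) ∣ N m →
      ¬ ((m * p ^ L : ℕ) : ℤ) ^ 2 ∣ N (m * p ^ L)) ∧
    -- for each `m ≥ 2`, all large primes `p` and all `L ≥ 1`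
    (∀ m : ℕ, 2 ≤ m → ∃ B : ℕ, ∀ p : ℕ, p.Prime → B < p → ∀ L : ℕ, 1 ≤ L →
      ¬ ((m * p ^ L : ℕ) : ℤ) ^ 2 ∣ N (m * p ^ L)) := by
  have hC : ∀ p : ℕ, p.Prime → ∀ L m : ℕ, 1 ≤ L → 1 ≤ m → m < p → ¬ (p : ℤ) ∣ N m →
      ¬ ((m * p ^ L : ℕ) : ℤ) ^ 2 ∣ N (m * p ^ L) := by
    intro p hp L m hL hm hmp h
    exact not_sq_dvd (p := p) (Dvd.dvd.mul_left (dvd_pow_self p (by omega)) m)
      (partC p hp L m hm hmp h)
  have hB : ∀ p : ℕ, p.Prime → ∀ L J n : ℕ, J < p → J * p ^ L < n → n < (J + 1) * p ^ L → p ∣ n →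
      ¬ (p : ℤ) ∣ (H J).num → ¬ (n : ℤ) ^ 2 ∣ N n :=
    fun p hp L J n hJ h1 h2 hd h => not_sq_dvd hd (partB p hp L J n hJ h1 h2 h)
  have hA : ∀ n : ℕ, 0 < n → n % 2 = 0 → ¬ (2 : ℤ) ∣ N n ∧ ¬ (n : ℤ) ^ 2 ∣ N n := by
    intro n hn he
    have h := partA n hn he
    exact ⟨h, not_sq_dvd (p := 2) (Nat.dvd_of_mod_eq_zero he) (by exact_mod_cast h)⟩
  refine ⟨hA, hB, ?_, hC, ?_⟩
  · intro p hp hp2 L n h1 h2 hd
    have hpge := hp.two_le
    have hdvd : ∀ a : ℕ, ¬ (p : ℤ) ∣ (2 : ℤ) ^ a := by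
      intro a h
      have h3 : p ∣ 2 ^ a := by exact_mod_cast h
      exact hp2 ((Nat.prime_dvd_prime_iff_eq hp Nat.prime_two).1 (hp.dvd_of_dvd_pow h3))
    rcases lt_trichotomy n (2 * p ^ L) with h3 | h3 | h3
    · apply hB p hp L 1 n (by omega) (by omega) (by omega) hd
      have : H 1 = 2 := by unfold H; norm_num
      rw [this]
      have := hdvd 1
      simpa using this
    · exact (hA n (by omega) (by omega)).2
    · apply hB p hp L 2 n (by omega) (by omega) (by omega) hd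
      have : H 2 = 4 := by
        unfold H
        rw [sum_Icc_succ_top (by norm_num)]
        norm_num
      rw [this]
      have := hdvd 2
      simpa using this
  · intro m hm
    refine ⟨max m (N m).natAbs, fun p hp hB2 L hL => ?_⟩
    have h1 : m < p := lt_of_le_of_lt (le_max_left _ _) hB2
    have h2 : (N m).natAbs < p := lt_of_le_of_lt (le_max_right _ _) hB2
    apply hC p hp L m hL (by omega) h1
    intro h
    have h3 : p ∣ (N m).natAbs := Int.natCast_dvd.1 h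
    have h4 : (N m).natAbs = 0 := Nat.eq_zero_of_dvd_of_lt h3 h2
    have h5 : 0 < N m := Rat.num_pos.2 (R_pos m hm)
    omega

end Pool.Agent.Results.MP_532480_nt.CompositeCases
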